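import Pool.Agent.H.MP_54b62b_gt.Defs

namespace Pool.Agent.H.MP_54b62b_gt

open Filter Topology Set

noncomputable def M : ℕ → ℕ
  | 0 => 1
  | n + 1 => M n * (Nat.exists_infinite_primes (4 * (n + 2) ^ M n)).choose

noncomputable def p (n : ℕ) : ℕ := (Nat.exists_infinite_primes (4 * (n + 2) ^ M n)).choose

lemma p_prime (n : ℕ) : (p n).Prime := (Nat.exists_infinite_primes _).choose_spec.2

lemma p_ge (n : ℕ) : 4 * (n + 2) ^ M n ≤ p n := (Nat.exists_infinite_primes _).choose_spec.1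

lemma M_eq (n : ℕ) : M n = ∏ k ∈ Finset.range n, p k := by
  induction n with
  | zero => rfl
  | succ n ih => rw [Finset.prod_range_succ, ← ih]; rfl

lemma M_pos (n : ℕ) : 0 < M n := M_eq n ▸ Finset.prod_pos fun k _ => (p_prime k).pos

lemma M_mono {m n : ℕ} (h : m ≤ n) : M m ≤ M n :=
  Nat.le_of_dvd (M_pos n) (by
    rw [M_eq, M_eq]
    exact Finset.prod_dvd_prod_of_subset _ _ _ (Finset.range_mono h))

lemma p_lt {m n : ℕ} (h : m < n) : p m < p n := by
  have h1 : p m ≤ M n := Nat.le_of_dvd (M_pos n)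
    (M_eq n ▸ Finset.dvd_prod_of_mem _ (Finset.mem_range.2 h))
  have h2 : M n < (n + 2) ^ M n := Nat.lt_pow_self (by omega)
  have := p_ge n
  omega

instance (n : ℕ) : Fact (p n).Prime := ⟨p_prime n⟩

def Z (n : ℕ) : Type := ZMod (p n)

noncomputable instance (n : ℕ) : Field (Z n) := inferInstanceAs (Field (ZMod (p n)))

instance (n : ℕ) : Finite (Z n) := inferInstanceAs (Finite (ZMod (p n)))

noncomputable def tc (n : ℕ) : Z n →+ UnitAddCircle := ZMod.toAddCircle (N := p n)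

lemma s_pos (n : ℕ) : (0 : ℝ) < (M n : ℝ)⁻¹ := inv_pos.2 (Nat.cast_pos.2 (M_pos n))

noncomputable def nu (n : ℕ) : AddGroupNorm (Z n) where
  toFun a := (4 * ‖tc n a‖) ^ (M n : ℝ)⁻¹
  map_zero' := by simp [(s_pos n).ne']
  add_le' a b := by
    refine le_trans (Real.rpow_le_rpow (by positivity) ?_ (s_pos n).le)
      (Real.rpow_add_le_add_rpow (by positivity) (by positivity) (s_pos n).le
        (inv_le_one_of_one_le₀ (Nat.one_le_cast.2 (M_pos n))))
    rw [map_add]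
    linarith [norm_add_le (tc n a) (tc n b)]
  neg' a := by simp
  eq_zero_of_map_eq_zero' a h := by
    have := (Real.rpow_eq_zero (by positivity) (s_pos n).ne').1 h
    exact ZMod.toAddCircle_eq_zero.1 (norm_eq_zero.1 (by linarith : ‖tc n a‖ = 0))

noncomputable instance (n : ℕ) : NormedAddCommGroup (Z n) := (nu n).toNormedAddCommGroup

lemma nrm (n : ℕ) (a : Z n) : ‖a‖ = (4 * ‖tc n a‖) ^ (M n : ℝ)⁻¹ := rfl

lemma gen {n : ℕ} {a : Z n} (h : a ≠ 0) (b : Z n) : ∃ j < p n, j • a = b :=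
  ⟨ZMod.val (n := p n) (b * a⁻¹), ZMod.val_lt _, by
    rw [nsmul_eq_mul]
    exact (congrArg (· * a) (ZMod.natCast_zmod_val (n := p n) _)).trans (by field_simp)⟩

lemma tc_nat (n j : ℕ) (h : 2 * j ≤ p n) : ‖tc n j‖ = j / p n := by
  have hp : (0 : ℝ) < p n := Nat.cast_pos.2 (p_prime n).pos
  have h : (2 : ℝ) * j ≤ p n := by exact_mod_cast h
  refine (congrArg norm (ZMod.toAddCircle_natCast (N := p n) j)).trans ?_
  rw [(AddCircle.norm_coe_eq_abs_iff 1 one_ne_zero).2, abs_of_nonneg (by positivity)]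
  rw [abs_of_nonneg (by positivity), abs_one, div_le_iff₀ hp]
  linarith

lemma big (n : ℕ) : ∃ a : Z n, 1 ≤ ‖a‖ := by
  have hp : (0 : ℝ) < p n := Nat.cast_pos.2 (p_prime n).pos
  refine ⟨(p n / 2 : ℕ), Real.one_le_rpow ?_ (s_pos n).le⟩
  have : p n ≤ 4 * (p n / 2) := by have := (p_prime n).two_le; omega
  rw [tc_nat _ _ (by omega), ← mul_div_assoc, le_div_iff₀ hp, one_mul]
  exact_mod_cast this

lemma small (n : ℕ) : ‖(1 : Z n)‖ ≤ 1 / (n + 1) := by
  have hp : (0 : ℝ) < p n := Nat.cast_pos.2 (p_prime n).pos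
  have h := tc_nat n 1 (p_prime n).two_le
  have h2 : (4 : ℝ) * (n + 2) ^ M n ≤ p n := by exact_mod_cast p_ge n
  rw [Nat.cast_one] at h
  rw [nrm, h, ← Real.pow_rpow_inv_natCast (x := 1 / (n + 1)) (by positivity) (M_pos n).ne']
  refine Real.rpow_le_rpow (by positivity) ?_ (s_pos n).le
  rw [Nat.cast_one, mul_one_div, one_div_pow, div_le_div_iff₀ hp (by positivity), one_mul]
  refine le_trans ?_ h2
  gcongr
  norm_num

lemma mult {n m : ℕ} (h : m ≤ M n) (a : Z n) : ‖m • a‖ ≤ 2 * ‖a‖ := by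
  have h1 : (m : ℝ) ≤ 2 ^ M n := by exact_mod_cast h.trans Nat.lt_two_pow_self.le
  rw [nrm, nrm, ← Real.pow_rpow_inv_natCast (x := 2) (by positivity) (M_pos n).ne',
    ← Real.mul_rpow (by positivity) (by positivity), map_nsmul]
  refine Real.rpow_le_rpow (by positivity) ?_ (s_pos n).le
  nlinarith [norm_nsmul_le (n := m) (a := tc n a), norm_nonneg (tc n a)]

lemma kill {n m : ℕ} (h : p n ∣ m) (a : Z n) : m • a = 0 := by
  rw [nsmul_eq_mul, show (m : Z n) = 0 from (ZMod.natCast_eq_zero_iff m (p n)).2 h, zero_mul]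

abbrev GG : Type := lp Z 1

lemma hs (f : GG) : HasSum (fun i => ‖f i‖) ‖f‖ := by
  simpa using lp.hasSum_norm (by simp) f

lemma disj {f g : GG} (h : ∀ i, f i = 0 ∨ g i = 0) : ‖f + g‖ = ‖f‖ + ‖g‖ :=
  (hs _).unique (by
    convert (hs f).add (hs g) using 2 with i
    rcases h i with h | h <;> simp [h])

noncomputable def hd (N : ℕ) (f : GG) : GG := ∑ i ∈ Finset.range N, lp.single 1 i (f i)

lemma hd_apply (N : ℕ) (f : GG) (i : ℕ) : hd N f i = if i < N then f i else 0 := by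
  simp only [hd, lp.coeFn_sum, Finset.sum_apply, lp.coeFn_single, Finset.sum_pi_single,
    Finset.mem_range]

lemma tail (f : GG) : Tendsto (fun N => ‖f - hd N f‖) atTop (𝓝 0) := by
  simpa [hd] using (((lp.hasSum_single (by simp) f).tendsto_sum_nat.const_sub f).norm)

lemma nsm (m : ℕ) (f : GG) (i : ℕ) : (m • f) i = m • f i := rfl

end Pool.Agent.H.MP_54b62b_gt
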