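import Pool.Agent.H.MP_54b62b_gt.A

namespace Pool.Agent.H.MP_54b62b_gt

open Filter Topology Set

lemma co {P : Filter GG} (h' : ∀ m : ℕ, Tendsto (fun x : GG => m • x) P P)
    (hV : ∀ᶠ x in P, ‖x‖ < 1) (i : ℕ) : ∀ᶠ x in P, x i = 0 := by
  refine ((eventually_all_finite (finite_Iio (p i))).2 fun j _ => (h' j).eventually hV).mono
    fun x hx => by_contra fun hne => ?_
  obtain ⟨b, hb⟩ := big i
  obtain ⟨j, hj, h⟩ := gen hne b
  have := lp.norm_apply_le_norm one_ne_zero (j • x) i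
  rw [nsm, h] at this
  linarith [hx j hj]

lemma hump {x y : GG} {N : ℕ} (h : ∀ i < N, y i = 0) : ‖x‖ + ‖y‖ ≤ ‖x + y‖ + 2 * ‖x - hd N x‖ := by
  have a1 : ‖hd N x + y‖ = ‖hd N x‖ + ‖y‖ := disj fun i => by
    by_cases hi : i < N
    exacts [Or.inr (h i hi), Or.inl (by rw [hd_apply, if_neg hi])]
  generalize hd N x = z at a1
  have a2 := norm_sub_norm_le x z
  have a3 := norm_sub_norm_le (z + y) (x + y)
  rw [add_sub_add_right_eq_sub, norm_sub_rev] at a3
  linarith

lemma le_nhds_zero {P : Filter GG} (h : Tendsto (fun q : GG × GG => q.1 + q.2) (P ×ˢ P) P)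
    (h' : ∀ m : ℕ, Tendsto (fun x : GG => m • x) P P) (hV : ∀ᶠ x in P, ‖x‖ < 1) : P ≤ 𝓝 0 := by
  refine (Metric.nhds_basis_ball.ge_iff).2 fun ε hε => by_contra fun hn => ?_
  have : P.NeBot := ⟨fun h => hn (h ▸ mem_bot)⟩
  have key (k : ℕ) : ∀ A ∈ P, ∃ x ∈ A, k * (ε / 2) ≤ ‖x‖ := by
    induction k with
    | zero => exact fun A hA => (Filter.nonempty_of_mem hA).imp fun x hx => ⟨hx, by simp⟩
    | succ k ih =>
      intro A hA
      obtain ⟨B, hB, hAB⟩ := mem_prod_self_iff.1 (h hA)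
      obtain ⟨x, hx, h1⟩ := ih B hB
      obtain ⟨N, hN⟩ := ((tail x).eventually (gt_mem_nhds (by positivity : 0 < ε / 4))).exists
      obtain ⟨y, ⟨h2, h3⟩, h4⟩ := not_subset.1 fun h => hn (mem_of_superset (inter_mem hB
        ((eventually_all_finite (finite_lt_nat N)).2 fun j _ => co h' hV j)) h)
      refine ⟨x + y, hAB (mk_mem_prod hx h2), ?_⟩
      have a4 : ε ≤ ‖y‖ := not_lt.1 (mt mem_ball_zero_iff.2 h4)
      have a5 := hump (x := x) h3
      push_cast
      linarith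
  obtain ⟨k, hk⟩ := exists_nat_ge (2 / ε)
  obtain ⟨x, hx, h1⟩ := key k _ hV
  rw [div_le_iff₀ hε] at hk
  linarith [show ‖x‖ < 1 from hx]

theorem locMin : LocMin GG := by
  refine ⟨_, Metric.ball_mem_nhds 0 one_pos, fun σ h1 _ h3 h4 => ?_⟩
  refine IsTopologicalAddGroup.ext h1 inferInstance (le_antisymm (le_nhds_zero ?_ (fun m => ?_)
    (mem_of_superset h4 fun _ => mem_ball_zero_iff.1)) (nhds_mono h3))
  · let _ := σ
    rw [← nhds_prod_eq]
    exact continuous_add.tendsto' _ _ (add_zero _)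
  · let _ := σ
    exact (continuous_nsmul m).tendsto' _ _ (nsmul_zero m)

theorem seqComplete : SeqComplete GG := fun u h =>
  cauchySeq_tendsto_of_complete (Metric.cauchySeq_iff.2 fun ε hε =>
    (h _ (Metric.ball_mem_nhds 0 hε)).imp fun N hN m hm n hn => by
      simpa [dist_eq_norm] using hN m hm n hn)

noncomputable def ee (n : ℕ) : GG := lp.single 1 n 1

lemma ee_norm (n : ℕ) : ‖ee n‖ ≤ 1 / (n + 1) := (lp.norm_single one_pos _ _).trans_le (small n)

theorem not_locEucl : ¬ LocEucl GG := by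
  intro h
  obtain ⟨n, e, he⟩ := h 0
  obtain ⟨r, hr, hb⟩ := Metric.mem_nhds_iff.1 (e.open_target.mem_nhds (e.map_source he))
  have h1 : Tendsto ee atTop (𝓝 0) := squeeze_zero_norm ee_norm
    tendsto_one_div_add_atTop_nhds_zero_nat
  obtain ⟨k, h2, h3⟩ := (h1.eventually (inter_mem (e.open_source.mem_nhds he)
    (e.continuousAt he (Metric.ball_mem_nhds _ hr)))).exists
  have hc : Continuous fun f : GG => f k := (lp.lipschitzWith_one_eval 1 k).continuous
  have := (((convex_ball (e 0) r).isPreconnected.image _ (hc.comp_continuousOn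
    (e.continuousOn_symm.mono hb))).subsingleton ⟨_, h3, rfl⟩ ⟨_, Metric.mem_ball_self hr, rfl⟩)
  rw [Function.comp_apply, Function.comp_apply, e.left_inv h2, e.left_inv he] at this
  simp [ee] at this

lemma single_mem {H : AddSubgroup GG} (hH : IsClosed (H : Set GG)) {x : GG} (hx : x ∈ H) {n : ℕ}
    (h : x n ≠ 0) : ee n ∈ H := by
  refine hH.closure_subset (Metric.mem_closure_iff.2 fun ε hε => ?_)
  obtain ⟨N, hN, hn⟩ := (((tail x).eventually (gt_mem_nhds (half_pos hε))).and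
    (eventually_gt_atTop n)).exists
  let Q := ∏ k ∈ (Finset.range N).erase n, p k
  have hQ : (Q : Z n) ≠ 0 := fun h => by
    obtain ⟨k, hk, h1⟩ := (p_prime n).prime.dvd_finsetProd_iff _ |>.1
      ((ZMod.natCast_eq_zero_iff Q (p n)).1 h)
    have h2 := (Nat.prime_dvd_prime_iff_eq (p_prime n) (p_prime k)).1 h1
    rcases lt_or_gt_of_ne (Finset.ne_of_mem_erase hk) with h | h
    exacts [(p_lt h).ne' h2, (p_lt h).ne h2]
  obtain ⟨r, hr, h1⟩ := gen (mul_ne_zero hQ h) 1
  have h2 : r * Q ≤ M N := by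
    rw [M_eq, ← Finset.mul_prod_erase _ _ (Finset.mem_range.2 hn)]
    exact Nat.mul_le_mul_right _ hr.le
  refine ⟨_, H.nsmul_mem hx (r * Q), ?_⟩
  rw [dist_comm, dist_eq_norm]
  refine lt_of_le_of_lt (hasSum_le (fun i => ?_) (hs _) ((hs (x - hd N x)).mul_left 2)) (by linarith)
  simp only [lp.coeFn_sub, Pi.sub_apply, nsm, hd_apply, ee]
  rcases eq_or_ne i n with rfl | hi
  · rw [lp.single_apply_self, mul_smul, nsmul_eq_mul Q, h1, sub_self, norm_zero]
    positivity
  rw [lp.single_apply_ne _ _ _ hi, sub_zero]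
  split_ifs with h3
  · rw [kill ((Finset.dvd_prod_of_mem _ (Finset.mem_erase.2 ⟨hi, Finset.mem_range.2 h3⟩)).mul_left r),
      norm_zero]
    positivity
  · rw [sub_zero]
    exact mult (h2.trans (M_mono (not_lt.1 h3))) _

theorem zeroDim_finite (H : AddSubgroup GG) (hH : IsClosed (H : Set GG)) (hZ : ZeroDim H) :
    Finite H := by
  by_contra hinf
  have hA (n : ℕ) : ∃ j ≥ n, ee j ∈ H := by
    by_contra! h
    refine hinf (Finite.of_injective (fun (x : H) (i : Fin n) => x.1 i) fun x y hxy =>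
      Subtype.ext (lp.ext (funext fun i => ?_)))
    by_cases hi : i < n
    · exact congrFun hxy ⟨i, hi⟩
    · exact sub_eq_zero.1 (by_contra fun h1 => h i (not_lt.1 hi)
        (single_mem hH (H.sub_mem x.2 y.2) h1))
  obtain ⟨C, hC, h0, hC1⟩ := hZ.2.mem_nhds_iff.1 (Metric.ball_mem_nhds (0 : H) one_pos)
  let S := {q : H × ℕ // q.1 ∈ C ∧ ∀ i ≥ q.2, q.1.1 i = 0}
  have step (q : S) : ∃ q' : S, q.1.2 < q'.1.2 ∧ dist q.1.1 q'.1.1 = ‖q'.1.1‖ - ‖q.1.1‖ ∧
      ∃ y ∉ C, dist y q'.1.1 ≤ 1 / (q.1.2 + 1) := by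
    obtain ⟨⟨x, n⟩, hx, hn⟩ := q
    obtain ⟨j, hj, he⟩ := hA n
    let e : H := ⟨_, he⟩
    have hd (m : ℕ) : ‖x + m • e‖ = ‖x‖ + ‖m • e‖ := disj (f := x.1) (g := m • ee j) fun i => by
      rcases eq_or_ne i j with rfl | hi
      exacts [Or.inl (hn _ hj), Or.inr (by rw [nsm, ee, lp.single_apply_ne _ _ _ hi, smul_zero])]
    obtain ⟨m, h1, h2⟩ : ∃ m : ℕ, x + m • e ∈ C ∧ x + (m + 1) • e ∉ C := by
      by_contra! h
      have a (m : ℕ) : x + m • e ∈ C := by
        induction m with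
        | zero => simpa using hx
        | succ m ih => exact h m ih
      obtain ⟨b, hb⟩ := big j
      obtain ⟨m, -, rfl⟩ := gen one_ne_zero b
      have a1 := mem_ball_zero_iff.1 (hC1 (a m))
      have a2 : ‖(m • ee j) j‖ ≤ ‖m • e‖ := lp.norm_apply_le_norm one_ne_zero (m • ee j) j
      rw [nsm, ee, lp.single_apply_self] at a2
      linarith [hd m, norm_nonneg x]
    refine ⟨⟨(x + m • e, j + 1), h1, fun i hi => ?_⟩, Nat.lt_succ_of_le hj, by simp [hd], _, h2, ?_⟩
    · have hi : j < i := hi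
      show x.1 i + m • ee j i = 0
      rw [hn i (hj.trans hi.le), ee, lp.single_apply_ne _ _ _ hi.ne', smul_zero, add_zero]
    · rw [succ_nsmul, ← add_assoc, dist_self_add_left]
      refine (ee_norm j).trans ?_
      gcongr
  choose F h1 h2 Y h3 h4 using step
  let q : ℕ → S := fun k => F^[k] ⟨(0, 0), h0, fun _ _ => rfl⟩
  have hq (k : ℕ) : q (k + 1) = F (q k) := Function.iterate_succ_apply' _ _ _
  have hk (k : ℕ) : k ≤ (q k).1.2 := by
    induction k with
    | zero => exact Nat.zero_le _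
    | succ k ih => exact hq k ▸ ih.trans_lt (h1 _)
  have : CompleteSpace H := hH.completeSpace_coe
  obtain ⟨x, hx⟩ := cauchySeq_tendsto_of_complete (cauchySeq_of_summable_dist
    (f := fun k => (q k).1.1) (summable_of_sum_range_le (c := 1) (fun _ => dist_nonneg) fun n => by
      simp only [Nat.succ_eq_add_one, hq, h2]
      simp only [← hq]
      rw [Finset.sum_range_sub fun k => ‖(q k).1.1‖]
      linarith [mem_ball_zero_iff.1 (hC1 (q n).2.1), norm_nonneg (q 0).1.1]))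
  have h5 : Tendsto (fun k => Y (q k)) atTop (𝓝 x) :=
    (hx.comp (tendsto_add_atTop_nat 1)).congr_dist (squeeze_zero (fun _ => dist_nonneg) (fun k => by
      rw [Function.comp_apply, hq, dist_comm]
      refine (h4 _).trans ?_
      gcongr
      exact Nat.cast_le.2 (hk k)) tendsto_one_div_add_atTop_nhds_zero_nat)
  obtain ⟨k, hk⟩ := (h5.eventually (hC.isOpen.mem_nhds
    (hC.isClosed.mem_of_tendsto hx (Eventually.of_forall fun k => (q k).2.1)))).exists
  exact h3 _ hk

end Pool.Agent.H.MP_54b62b_gt
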