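import Mathlib

namespace Pool.Agent.H.MP_54b62b_gt

open Filter Topology Set

variable (G : Type) [AddCommGroup G] [τ : TopologicalSpace G]

/-- locally minimal -/
def LocMin : Prop :=
  ∃ V ∈ 𝓝 (0 : G), ∀ σ : TopologicalSpace G, @IsTopologicalAddGroup G σ _ → @T2Space G σ →
    τ ≤ σ → V ∈ @nhds G σ 0 → σ = τ

/-- every Cauchy sequence converges -/
def SeqComplete : Prop :=
  ∀ u : ℕ → G, (∀ U ∈ 𝓝 (0 : G), ∃ N, ∀ m ≥ N, ∀ n ≥ N, u m - u n ∈ U) →
    ∃ x, Tendsto u atTop (𝓝 x)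

/-- the clopen sets form a base -/
def ZeroDim (X : Type) [TopologicalSpace X] : Prop :=
  Nonempty X ∧ TopologicalSpace.IsTopologicalBasis {s : Set X | IsClopen s}

/-- locally Euclidean -/
def LocEucl (X : Type) [TopologicalSpace X] : Prop :=
  ∀ x : X, ∃ (n : ℕ) (e : OpenPartialHomeomorph X (EuclideanSpace ℝ (Fin n))), x ∈ e.source

end Pool.Agent.H.MP_54b62b_gt
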